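import Pool.Agent.Helper99.WP.GoalsK

/-!
# WP, packet BAR: the barrier
-/

open Finset

namespace Pool.Agent.Helper20.WP

open Pool.Agent.Helper99.WP Pool.Agent.Helper99.ERW

variable {d : ℕ}

/-- squared Euclidean distance -/
noncomputable def N2 (y z : Site d) : ℝ := ∑ l, ((z l - y l : ℤ) : ℝ) ^ 2

theorem ev_same (l : Fin d) : ev l l = 1 := by simp [ev]

theorem ev_ne {l k : Fin d} (h : k ≠ l) : ev l k = 0 := by simp [ev, h]

theorem N2_add (y z : Site d) (l : Fin d) :
    N2 y (z + ev l) = N2 y z + (2 * ((z l - y l : ℤ) : ℝ) + 1) := by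
  unfold N2
  have h : ∀ k : Fin d, (((z + ev l) k - y k : ℤ) : ℝ) ^ 2
      = ((z k - y k : ℤ) : ℝ) ^ 2 + (if k = l then (2 * ((z l - y l : ℤ) : ℝ) + 1) else 0) := by
    intro k
    by_cases hk : k = l
    · subst hk
      simp only [Pi.add_apply, ev_same, if_true]
      push_cast
      ring
    · simp only [Pi.add_apply, ev_ne hk, if_neg hk]
      push_cast
      ring
  rw [Finset.sum_congr rfl (fun k _ => h k), Finset.sum_add_distrib, Finset.sum_ite_eq']
  simp

theorem N2_sub (y z : Site d) (l : Fin d) :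
    N2 y (z - ev l) = N2 y z + (- (2 * ((z l - y l : ℤ) : ℝ)) + 1) := by
  unfold N2
  have h : ∀ k : Fin d, (((z - ev l) k - y k : ℤ) : ℝ) ^ 2
      = ((z k - y k : ℤ) : ℝ) ^ 2 + (if k = l then (- (2 * ((z l - y l : ℤ) : ℝ)) + 1) else 0) := by
    intro k
    by_cases hk : k = l
    · subst hk
      simp only [Pi.sub_apply, ev_same, if_true]
      push_cast
      ring
    · simp only [Pi.sub_apply, ev_ne hk, if_neg hk]
      push_cast
      ring
  rw [Finset.sum_congr rfl (fun k _ => h k), Finset.sum_add_distrib, Finset.sum_ite_eq']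
  simp

theorem exp_add_exp_neg (t : ℝ) : 2 + t ^ 2 ≤ Real.exp t + Real.exp (-t) := by
  have key : ∀ t : ℝ, 0 ≤ t → 2 + t ^ 2 ≤ Real.exp t + Real.exp (-t) := by
    intro t ht
    have h1 : Real.exp t + Real.exp (-t) = 2 * Real.cosh t := by
      rw [Real.cosh_eq]; ring
    have h2 : Real.cosh t = Real.cosh (t / 2) ^ 2 + Real.sinh (t / 2) ^ 2 := by
      rw [← Real.cosh_two_mul]; congr 1; ring
    have h3 := Real.cosh_sq' (t / 2)
    have h4 : t / 2 ≤ Real.sinh (t / 2) := Real.self_le_sinh_iff.mpr (by linarith)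
    have h5 : (t / 2) ^ 2 ≤ Real.sinh (t / 2) ^ 2 := by
      apply pow_le_pow_left₀ (by linarith) h4
    rw [h1, h2, h3]
    nlinarith
  rcases le_total 0 t with h | h
  · exact key t h
  · have := key (-t) (by linarith)
    rw [neg_neg] at this
    nlinarith

theorem term_bound (β x : ℝ) (h1 : β ≤ 1 / 2) :
    -2 * β + 2 * β ^ 2 * x ^ 2 ≤
      Real.exp (-β) * (Real.exp (-(2 * β * x)) + Real.exp (2 * β * x)) - 2 := by
  have h2 := exp_add_exp_neg (2 * β * x)
  have h3 : 1 - β ≤ Real.exp (-β) := by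
    have := Real.add_one_le_exp (-β)
    linarith
  have h4 : 0 ≤ (2 * β * x) ^ 2 := sq_nonneg _
  have h5 : Real.exp (-β) * (2 + (2 * β * x) ^ 2) ≤
      Real.exp (-β) * (Real.exp (-(2 * β * x)) + Real.exp (2 * β * x)) := by
    apply mul_le_mul_of_nonneg_left _ (Real.exp_pos _).le
    linarith
  have h6 : (1 - β) * (2 + (2 * β * x) ^ 2) ≤ Real.exp (-β) * (2 + (2 * β * x) ^ 2) := by
    apply mul_le_mul_of_nonneg_right h3
    linarith
  have h7 : (1 / 2) * (2 * β * x) ^ 2 ≤ (1 - β) * (2 * β * x) ^ 2 := by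
    apply mul_le_mul_of_nonneg_right _ h4
    linarith
  nlinarith

theorem lap_phi (κ : ℝ) (p : Site d → Fin d → ℝ) (hκ : 0 < κ) (hE : Ell κ p) (β : ℝ) (h0 : 0 ≤ β)
    (h1 : β ≤ 1 / 2) (y z : Site d) :
    Real.exp (-(β * N2 y z)) * (β * (2 * β * κ * N2 y z - 1)) ≤
      lap p (fun w => Real.exp (-(β * N2 y w))) z := by
  unfold lap
  have hterm : ∀ l : Fin d, Real.exp (-(β * N2 y z)) *
      (-β * (2 * p z l) + 2 * β ^ 2 * κ * ((z l - y l : ℤ) : ℝ) ^ 2) ≤
      p z l * (Real.exp (-(β * N2 y (z + ev l))) + Real.exp (-(β * N2 y (z - ev l)))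
        - 2 * Real.exp (-(β * N2 y z))) := by
    intro l
    set x : ℝ := ((z l - y l : ℤ) : ℝ) with hx
    have e1 : Real.exp (-(β * N2 y (z + ev l)))
        = Real.exp (-(β * N2 y z)) * (Real.exp (-β) * Real.exp (-(2 * β * x))) := by
      rw [N2_add, ← Real.exp_add, ← Real.exp_add]
      congr 1
      ring
    have e2 : Real.exp (-(β * N2 y (z - ev l)))
        = Real.exp (-(β * N2 y z)) * (Real.exp (-β) * Real.exp (2 * β * x)) := by
      rw [N2_sub, ← Real.exp_add, ← Real.exp_add]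
      congr 1
      ring
    rw [e1, e2]
    have hp : κ ≤ p z l := (hE z).1 l
    have hb := term_bound β x h1
    have hpos : 0 ≤ p z l := by linarith
    have hx2 : 0 ≤ x ^ 2 := sq_nonneg _
    have e3 : p z l * (Real.exp (-(β * N2 y z)) * (Real.exp (-β) * Real.exp (-(2 * β * x)))
        + Real.exp (-(β * N2 y z)) * (Real.exp (-β) * Real.exp (2 * β * x))
        - 2 * Real.exp (-(β * N2 y z)))
        = Real.exp (-(β * N2 y z)) * (p z l *
          (Real.exp (-β) * (Real.exp (-(2 * β * x)) + Real.exp (2 * β * x)) - 2)) := by ring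
    rw [e3]
    apply mul_le_mul_of_nonneg_left _ (Real.exp_pos _).le
    have h8 : p z l * (-2 * β + 2 * β ^ 2 * x ^ 2) ≤ p z l *
          (Real.exp (-β) * (Real.exp (-(2 * β * x)) + Real.exp (2 * β * x)) - 2) :=
      mul_le_mul_of_nonneg_left hb hpos
    have h9 : κ * (2 * β ^ 2 * x ^ 2) ≤ p z l * (2 * β ^ 2 * x ^ 2) := by
      apply mul_le_mul_of_nonneg_right hp
      positivity
    linarith
  have hsum := Finset.sum_le_sum (fun l (_ : l ∈ (Finset.univ : Finset (Fin d))) => hterm l)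
  refine le_trans (le_of_eq ?_) hsum
  rw [← Finset.mul_sum, Finset.sum_add_distrib, ← Finset.mul_sum, (hE z).2, ← Finset.mul_sum]
  unfold N2
  ring

theorem lap_sub_const (p : Site d → Fin d → ℝ) (f u : Site d → ℝ) (a : ℝ) (z : Site d) :
    lap p (fun w => f w - a - u w) z = lap p f z - lap p u z := by
  unfold lap
  rw [← Finset.sum_sub_distrib]
  apply Finset.sum_congr rfl
  intro l _
  ring

theorem mem_Q (hQ : QQQ_stmt) (r : ℕ) (y z : Site d) : z ∈ Q r y ↔ ∀ l, |z l - y l| ≤ (r : ℤ) :=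
  (hQ d).1 r y z

theorem not_mem_Q (hQ : QQQ_stmt) (r : ℕ) (y z : Site d) (h : z ∉ Q r y) :
    ∃ l, (r : ℤ) + 1 ≤ |z l - y l| := by
  rw [mem_Q hQ] at h
  push Not at h
  obtain ⟨l, hl⟩ := h
  exact ⟨l, by omega⟩

theorem N2_ge_of_not_mem (hQ : QQQ_stmt) (r : ℕ) (y z : Site d) (h : z ∉ Q r y) :
    ((r : ℝ) + 1) ^ 2 ≤ N2 y z := by
  obtain ⟨l, hl⟩ := not_mem_Q hQ r y z h
  unfold N2
  have h1 : ((r : ℝ) + 1) ^ 2 ≤ ((z l - y l : ℤ) : ℝ) ^ 2 := by
    have h2 : ((r : ℝ) + 1) ≤ |((z l - y l : ℤ) : ℝ)| := by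
      have : (((r : ℤ) + 1 : ℤ) : ℝ) ≤ ((|z l - y l| : ℤ) : ℝ) := by exact_mod_cast hl
      rw [Int.cast_abs] at this
      push_cast at this ⊢
      exact this
    rw [← sq_abs ((z l - y l : ℤ) : ℝ)]
    apply pow_le_pow_left₀ (by positivity) h2
  refine h1.trans ?_
  exact Finset.single_le_sum (f := fun k => ((z k - y k : ℤ) : ℝ) ^ 2) (fun k _ => sq_nonneg _)
    (Finset.mem_univ l)

theorem N2_le_of_mem (hQ : QQQ_stmt) (r : ℕ) (y z : Site d) (h : z ∈ Q r y) :
    N2 y z ≤ d * (r : ℝ) ^ 2 := by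
  rw [mem_Q hQ] at h
  unfold N2
  have h1 : ∀ l ∈ (Finset.univ : Finset (Fin d)), ((z l - y l : ℤ) : ℝ) ^ 2 ≤ (r : ℝ) ^ 2 := by
    intro l _
    rw [← sq_abs ((z l - y l : ℤ) : ℝ)]
    apply pow_le_pow_left₀ (abs_nonneg _)
    have h2 := h l
    have : ((|z l - y l| : ℤ) : ℝ) ≤ ((r : ℤ) : ℝ) := by exact_mod_cast h2
    rw [Int.cast_abs] at this
    push_cast at this ⊢
    exact this
  have := Finset.sum_le_card_nsmul _ _ _ h1
  rw [Finset.card_univ, Fintype.card_fin, nsmul_eq_mul] at this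
  exact this

theorem case_big (hM : MXP_stmt) (hQ : QQQ_stmt) (κ : ℝ) (hκ : 0 < κ) (lam : ℕ)
    (p : Site d → Fin d → ℝ) (hE : Ell κ p) (r : ℕ) (y : Site d) (u : Site d → ℝ)
    (hs : 1 ≤ κ * ((r : ℝ) + 1) ^ 2)
    (h1 : ∀ z ∈ Q ((d * lam + 1) * (r + 1)) y, z ∉ Q r y → lap p u z ≤ 0)
    (h2 : ∀ z ∈ Q ((d * lam + 1) * (r + 1) + 1) y, 0 ≤ u z) (h3 : ∀ z ∈ Q r y, 1 ≤ u z)
    (z : Site d) (hz : z ∈ Q (lam * (r + 1)) y) :
    Real.exp (-(1 / (2 * κ) * (d * (lam : ℝ) ^ 2)))
      - Real.exp (-(1 / (2 * κ) * ((d : ℝ) * lam + 1) ^ 2)) ≤ u z := by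
  classical
  set K : ℕ := d * lam + 1 with hK
  set s : ℝ := (r : ℝ) + 1 with hsdef
  have hs0 : 0 < s := by positivity
  set β : ℝ := 1 / (2 * κ * s ^ 2) with hβ
  have hβ0 : 0 < β := by positivity
  have hβ1 : β ≤ 1 / 2 := by
    rw [hβ]
    apply one_div_le_one_div_of_le (by norm_num)
    nlinarith
  have hβs : β * s ^ 2 = 1 / (2 * κ) := by
    rw [hβ]
    field_simp
  have hβκ : 2 * β * κ * s ^ 2 = 1 := by
    rw [hβ]
    field_simp
  set a : ℝ := Real.exp (-(1 / (2 * κ) * ((d : ℝ) * lam + 1) ^ 2)) with ha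
  have hapos : 0 < a := Real.exp_pos _
  set D : Finset (Site d) := Q (K * (r + 1)) y \ Q r y with hD
  have hmain : ∀ x ∈ D, (fun w => Real.exp (-(β * N2 y w)) - a - u w) x ≤ 0 := by
    apply hM d κ p hκ hE D
    · intro x hx
      rw [lap_sub_const]
      rw [hD, Finset.mem_sdiff] at hx
      have e1 := h1 x hx.1 hx.2
      have e2 := lap_phi κ p hκ hE β hβ0.le hβ1 y x
      have e3 := N2_ge_of_not_mem hQ r y x hx.2
      have e4 : 0 ≤ 2 * β * κ * N2 y x - 1 := by
        have : 2 * β * κ * s ^ 2 ≤ 2 * β * κ * N2 y x := by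
          apply mul_le_mul_of_nonneg_left e3
          positivity
        linarith
      have e5 : 0 ≤ Real.exp (-(β * N2 y x)) * (β * (2 * β * κ * N2 y x - 1)) :=
        mul_nonneg (Real.exp_pos _).le (mul_nonneg hβ0.le e4)
      linarith
    · have hbd : ∀ w : Site d, w ∈ Q (K * (r + 1) + 1) y → w ∉ D →
          (fun w => Real.exp (-(β * N2 y w)) - a - u w) w ≤ 0 := by
        intro w hw hwD
        show Real.exp (-(β * N2 y w)) - a - u w ≤ 0
        by_cases hwr : w ∈ Q r y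
        · have e1 := h3 w hwr
          have e2 : Real.exp (-(β * N2 y w)) ≤ 1 := by
            apply Real.exp_le_one_iff.mpr
            have : 0 ≤ N2 y w := Finset.sum_nonneg (fun _ _ => sq_nonneg _)
            have := mul_nonneg hβ0.le this
            linarith
          linarith
        · have e1 : w ∉ Q (K * (r + 1)) y := by
            intro hc
            apply hwD
            rw [hD, Finset.mem_sdiff]
            exact ⟨hc, hwr⟩
          have e2 := N2_ge_of_not_mem hQ _ y w e1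
          have e3 : (((K * (r + 1) : ℕ) : ℝ)) ^ 2 ≤ N2 y w := by
            refine le_trans ?_ e2
            apply pow_le_pow_left₀ (by positivity)
            linarith
          have e4 : Real.exp (-(β * N2 y w)) ≤ a := by
            rw [ha]
            apply Real.exp_le_exp.mpr
            have e5 : β * (((K * (r + 1) : ℕ) : ℝ)) ^ 2 ≤ β * N2 y w :=
              mul_le_mul_of_nonneg_left e3 hβ0.le
            have e6 : β * (((K * (r + 1) : ℕ) : ℝ)) ^ 2 = 1 / (2 * κ) * ((d : ℝ) * lam + 1) ^ 2 := by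
              rw [← hβs, hK, hsdef]
              push_cast
              ring
            linarith
          have e7 := h2 w hw
          linarith
      intro x hx l
      rw [hD, Finset.mem_sdiff] at hx
      have e := (hQ d).2.2.1 _ y x hx.1 l
      exact ⟨fun hn => hbd _ e.1 hn, fun hn => hbd _ e.2 hn⟩
  -- the conclusion
  have hcz : Real.exp (-(1 / (2 * κ) * (d * (lam : ℝ) ^ 2))) ≤ Real.exp (-(β * N2 y z)) := by
    apply Real.exp_le_exp.mpr
    have e1 := N2_le_of_mem hQ _ y z hz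
    have e2 : β * N2 y z ≤ β * (d * ((lam * (r + 1) : ℕ) : ℝ) ^ 2) :=
      mul_le_mul_of_nonneg_left e1 hβ0.le
    have e3 : β * (d * ((lam * (r + 1) : ℕ) : ℝ) ^ 2) = 1 / (2 * κ) * (d * (lam : ℝ) ^ 2) := by
      rw [← hβs, hsdef]
      push_cast
      ring
    linarith
  by_cases hzr : z ∈ Q r y
  · have e1 := h3 z hzr
    have e2 : Real.exp (-(1 / (2 * κ) * (d * (lam : ℝ) ^ 2))) ≤ 1 := by
      apply Real.exp_le_one_iff.mpr
      have : 0 ≤ 1 / (2 * κ) * (d * (lam : ℝ) ^ 2) := by positivity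
      linarith
    linarith
  · have hzD : z ∈ D := by
      rw [hD, Finset.mem_sdiff]
      refine ⟨?_, hzr⟩
      rcases Nat.eq_zero_or_pos d with hd | hd
      · subst hd
        exact absurd ((mem_Q hQ r y z).mpr (fun l => l.elim0)) hzr
      · apply (hQ d).2.2.2.2.2 (lam * (r + 1)) (K * (r + 1)) y _ hz
        apply Nat.mul_le_mul_right
        rw [hK]
        nlinarith
    have e1 := hmain z hzD
    have e2 : Real.exp (-(β * N2 y z)) - a - u z ≤ 0 := e1
    linarith

/-- distance in `ℓ¹` -/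
def N1 (y z : Site d) : ℕ := ∑ l, (z l - y l).natAbs

theorem N1_step (y z : Site d) (l : Fin d) (h : z l - y l ≠ 0) :
    ∃ w : Site d, (w = z + ev l ∨ w = z - ev l) ∧ N1 y w + 1 = N1 y z ∧
      ∀ k, |w k - y k| ≤ |z k - y k| := by
  have key : ∀ w : Site d, (∀ k, k ≠ l → w k = z k) →
      (w l - y l).natAbs + 1 = (z l - y l).natAbs → N1 y w + 1 = N1 y z := by
    intro w hw hl
    unfold N1
    rw [← Finset.add_sum_erase _ _ (Finset.mem_univ l), ← Finset.add_sum_erase _ (fun k => (z k - y k).natAbs) (Finset.mem_univ l)]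
    have : ∑ k ∈ Finset.univ.erase l, (w k - y k).natAbs
        = ∑ k ∈ Finset.univ.erase l, (z k - y k).natAbs := by
      apply Finset.sum_congr rfl
      intro k hk
      rw [hw k (Finset.ne_of_mem_erase hk)]
    rw [this]
    omega
  rcases lt_or_gt_of_ne h with h' | h'
  · refine ⟨z + ev l, Or.inl rfl, key _ ?_ ?_, ?_⟩
    · intro k hk
      simp [ev_ne hk]
    · simp only [Pi.add_apply, ev_same]
      omega
    · intro k
      by_cases hk : k = l
      · subst hk
        simp only [Pi.add_apply, ev_same]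
        rw [abs_of_nonpos (by omega), abs_of_neg h']
        omega
      · simp [ev_ne hk]
  · refine ⟨z - ev l, Or.inr rfl, key _ ?_ ?_, ?_⟩
    · intro k hk
      simp [ev_ne hk]
    · simp only [Pi.sub_apply, ev_same]
      omega
    · intro k
      by_cases hk : k = l
      · subst hk
        simp only [Pi.sub_apply, ev_same]
        rw [abs_of_nonneg (by omega), abs_of_pos h']
        omega
      · simp [ev_ne hk]

theorem neigh_bound (κ : ℝ) (p : Site d → Fin d → ℝ) (hκ : 0 < κ) (hE : Ell κ p)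
    (u : Site d → ℝ) (z : Site d) (hl : lap p u z ≤ 0)
    (hn : ∀ l, 0 ≤ u (z + ev l) ∧ 0 ≤ u (z - ev l)) (l : Fin d) :
    κ * u (z + ev l) ≤ u z ∧ κ * u (z - ev l) ≤ u z := by
  have h1 : ∑ k, p z k * (u (z + ev k) + u (z - ev k)) ≤ u z := by
    have e1 : lap p u z = ∑ k, p z k * (u (z + ev k) + u (z - ev k)) - u z := by
      unfold lap
      have e2 : ∀ k : Fin d, p z k * (u (z + ev k) + u (z - ev k) - 2 * u z)
          = p z k * (u (z + ev k) + u (z - ev k)) - u z * (2 * p z k) := by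
        intro k
        ring
      rw [Finset.sum_congr rfl (fun k _ => e2 k), Finset.sum_sub_distrib, ← Finset.mul_sum,
        (hE z).2, mul_one]
    linarith
  have h2 : p z l * (u (z + ev l) + u (z - ev l)) ≤
      ∑ k, p z k * (u (z + ev k) + u (z - ev k)) := by
    apply Finset.single_le_sum (f := fun k => p z k * (u (z + ev k) + u (z - ev k)))
      _ (Finset.mem_univ l)
    intro k _
    have h3 : 0 ≤ p z k := hκ.le.trans ((hE z).1 k)
    exact mul_nonneg h3 (add_nonneg (hn k).1 (hn k).2)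
  have h4 : κ * (u (z + ev l) + u (z - ev l)) ≤ p z l * (u (z + ev l) + u (z - ev l)) :=
    mul_le_mul_of_nonneg_right ((hE z).1 l) (add_nonneg (hn l).1 (hn l).2)
  have h5 := mul_nonneg hκ.le (hn l).1
  have h6 := mul_nonneg hκ.le (hn l).2
  constructor <;> nlinarith

theorem kappa_le_one (κ : ℝ) (p : Site d → Fin d → ℝ) (hκ : 0 < κ) (hE : Ell κ p) : κ ≤ 1 := by
  have h := hE 0
  rcases Nat.eq_zero_or_pos d with hd | hd
  · subst hd
    have := h.2
    simp at this
  · have h1 : 2 * p 0 ⟨0, hd⟩ ≤ ∑ l, 2 * p 0 l := by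
      apply Finset.single_le_sum (f := fun l => 2 * p 0 l) _ (Finset.mem_univ _)
      intro k _
      have := h.1 k
      show 0 ≤ 2 * p 0 k
      linarith
    have h2 := h.1 ⟨0, hd⟩
    rw [h.2] at h1
    linarith

theorem case_small (hQ : QQQ_stmt) (κ : ℝ) (hκ : 0 < κ)
    (p : Site d → Fin d → ℝ) (hE : Ell κ p) (r K : ℕ) (y : Site d) (u : Site d → ℝ)
    (h1 : ∀ z ∈ Q (K * (r + 1)) y, z ∉ Q r y → lap p u z ≤ 0)
    (h2 : ∀ z ∈ Q (K * (r + 1) + 1) y, 0 ≤ u z) (h3 : ∀ z ∈ Q r y, 1 ≤ u z) :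
    ∀ (n : ℕ) (z : Site d), z ∈ Q (K * (r + 1)) y → N1 y z ≤ n → κ ^ n ≤ u z := by
  have hκ1 := kappa_le_one κ p hκ hE
  intro n
  induction n with
  | zero =>
    intro z hz hn
    rw [pow_zero]
    apply h3
    rw [mem_Q hQ]
    intro l
    have h4 : (z l - y l).natAbs ≤ N1 y z :=
      Finset.single_le_sum (f := fun k => (z k - y k).natAbs) (fun _ _ => Nat.zero_le _)
        (Finset.mem_univ l)
    have h5 : (z l - y l).natAbs = 0 := by omega
    rw [Int.natAbs_eq_zero.mp h5]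
    simp
  | succ n ih =>
    intro z hz hn
    by_cases hzr : z ∈ Q r y
    · exact le_trans (pow_le_one₀ hκ.le hκ1) (h3 z hzr)
    · obtain ⟨l, hl⟩ := not_mem_Q hQ r y z hzr
      have hne : z l - y l ≠ 0 := by
        intro h0
        rw [h0] at hl
        simp at hl
        omega
      obtain ⟨w, hw, hN, hk⟩ := N1_step y z l hne
      have hwK : w ∈ Q (K * (r + 1)) y := by
        rw [mem_Q hQ] at hz ⊢
        intro k
        exact (hk k).trans (hz k)
      have hwu := ih w hwK (by omega)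
      have hnn : ∀ k, 0 ≤ u (z + ev k) ∧ 0 ≤ u (z - ev k) := by
        intro k
        have e := (hQ d).2.2.1 _ y z hz k
        exact ⟨h2 _ e.1, h2 _ e.2⟩
      have hb := neigh_bound κ p hκ hE u z (h1 z hz hzr) hnn l
      rw [pow_succ, mul_comm]
      refine (mul_le_mul_of_nonneg_left hwu hκ.le).trans ?_
      rcases hw with rfl | rfl
      · exact hb.1
      · exact hb.2

theorem N1_le_of_mem (hQ : QQQ_stmt) (r : ℕ) (y z : Site d) (h : z ∈ Q r y) :
    N1 y z ≤ d * r := by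
  rw [mem_Q hQ] at h
  unfold N1
  have h1 : ∀ l ∈ (Finset.univ : Finset (Fin d)), (z l - y l).natAbs ≤ r := by
    intro l _
    have h2 := h l
    rw [Int.abs_eq_natAbs] at h2
    exact_mod_cast h2
  have := Finset.sum_le_card_nsmul _ _ _ h1
  rw [Finset.card_univ, Fintype.card_fin, smul_eq_mul] at this
  exact this

theorem BAR (hMXP : MXP_stmt) (hQQQ : QQQ_stmt) : BAR_stmt := by
  intro d κ hκ lam
  have hA : 0 < Real.exp (-(1 / (2 * κ) * (d * (lam : ℝ) ^ 2)))
      - Real.exp (-(1 / (2 * κ) * ((d : ℝ) * lam + 1) ^ 2)) := by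
    rw [sub_pos]
    apply Real.exp_lt_exp.mpr
    have h1 : (d : ℝ) * (lam : ℝ) ^ 2 < ((d : ℝ) * lam + 1) ^ 2 := by
      have h2 : (d : ℝ) ≤ (d : ℝ) ^ 2 := by
        rcases Nat.eq_zero_or_pos d with hd | hd
        · subst hd
          simp
        · have : (1 : ℝ) ≤ d := by exact_mod_cast hd
          nlinarith
      have h3 : (d : ℝ) * (lam : ℝ) ^ 2 ≤ (d : ℝ) ^ 2 * (lam : ℝ) ^ 2 :=
        mul_le_mul_of_nonneg_right h2 (sq_nonneg _)
      have h4 : 0 ≤ (d : ℝ) * lam := by positivity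
      nlinarith
    have h5 : 0 < 1 / (2 * κ) := by positivity
    have := mul_lt_mul_of_pos_left h1 h5
    linarith
  set m : ℕ := ⌈(d : ℝ) * lam / κ⌉₊ with hm
  refine ⟨d * lam + 1, min (Real.exp (-(1 / (2 * κ) * (d * (lam : ℝ) ^ 2)))
      - Real.exp (-(1 / (2 * κ) * ((d : ℝ) * lam + 1) ^ 2))) (κ ^ m),
      lt_min hA (pow_pos hκ m), ?_⟩
  intro p hE r y u h1 h2 h3 z hz
  by_cases hs : 1 ≤ κ * ((r : ℝ) + 1) ^ 2
  · exact (min_le_left _ _).trans
      (case_big hMXP hQQQ κ hκ lam p hE r y u hs h1 h2 h3 z hz)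
  · push Not at hs
    refine (min_le_right _ _).trans ?_
    have hd : 0 < d := by
      rcases Nat.eq_zero_or_pos d with hd | hd
      · subst hd
        have := (hE 0).2
        simp at this
      · exact hd
    apply case_small hQQQ κ hκ p hE r (d * lam + 1) y u h1 h2 h3
    · apply (hQQQ d).2.2.2.2.2 (lam * (r + 1)) ((d * lam + 1) * (r + 1)) y _ hz
      apply Nat.mul_le_mul_right
      nlinarith
    · have e1 := N1_le_of_mem hQQQ _ y z hz
      have e2 : (d * (lam * (r + 1)) : ℕ) ≤ m := by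
        have e3 : ((d * (lam * (r + 1)) : ℕ) : ℝ) ≤ (d : ℝ) * lam / κ := by
          rw [le_div_iff₀ hκ]
          push_cast
          have e4 : κ * ((r : ℝ) + 1) ≤ 1 := by
            have e5 : (1 : ℝ) ≤ (r : ℝ) + 1 := by
              have : (0 : ℝ) ≤ r := Nat.cast_nonneg r
              linarith
            have e6 : κ * ((r : ℝ) + 1) ≤ κ * ((r : ℝ) + 1) ^ 2 := by
              apply mul_le_mul_of_nonneg_left _ hκ.le
              nlinarith
            linarith
          have e7 : (0 : ℝ) ≤ (d : ℝ) * lam := by positivity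
          have e8 := mul_le_mul_of_nonneg_left e4 e7
          calc (d : ℝ) * (lam * (r + 1)) * κ = (d : ℝ) * lam * (κ * ((r : ℝ) + 1)) := by ring
            _ ≤ (d : ℝ) * lam * 1 := e8
            _ = (d : ℝ) * lam := by ring
        have e9 : ((d * (lam * (r + 1)) : ℕ) : ℝ) ≤ (m : ℝ) := e3.trans (Nat.le_ceil _)
        exact Nat.cast_le.mp e9
      exact e1.trans e2

end Pool.Agent.Helper20.WP
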